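import Mathlib

/-!
# Strong colourings of `t`-intersecting hypergraphs (MP_5b9121_co): definitions

A hypergraph is a finite vertex set together with a finite family of subsets of it.
-/

set_option autoImplicit false

namespace H61LK

open Finset

/-- The `c`-strong chromatic number of the hypergraph with vertex set `W` and edge family `E`: the
least `k` for which there is a map `φ : W → {0, …, k-1}` such that every edge `e` receives at least
`min c |e|` distinct colours. (Only the values of `φ` on `W` matter, the edges are subsets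
of `W`.) -/
noncomputable def chi {V : Type} [DecidableEq V] (W : Finset V) (E : Finset (Finset V)) (c : ℕ) :
    ℕ :=
  sInf {k : ℕ | ∃ φ : V → ℕ, (∀ v ∈ W, φ v < k) ∧ ∀ e ∈ E, min c e.card ≤ (e.image φ).card}

/-- Every two edges share at least `t` vertices. -/
def TIntersecting {V : Type} [DecidableEq V] (t : ℕ) (E : Finset (Finset V)) : Prop :=
  ∀ e ∈ E, ∀ e' ∈ E, t ≤ (e ∩ e').card

/-- The edges `e \ S`, `S ⊆ e ∈ E`, of the link of `S`; its vertex set is the complement of `S`. -/
def link {V : Type} [DecidableEq V] (E : Finset (Finset V)) (S : Finset V) : Finset (Finset V) :=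
  (E.filter fun e => S ⊆ e).image fun e => e \ S

/-- `χ(H, t, ℓ)`: the maximum over the `t`-sets `S` of vertices of the `ℓ`-strong chromatic number
of the link of `S`. -/
noncomputable def chiLink {V : Type} [Fintype V] [DecidableEq V] (E : Finset (Finset V))
    (t l : ℕ) : ℕ :=
  ((univ : Finset V).powersetCard t).sup fun S => chi (univ \ S) (link E S) l

/-- The exponent `x` works for `t, ℓ`: for some constant `C` every `t`-intersecting hypergraph `H`
satisfies `χ(H, t + ℓ) ≤ C * χ(H, t, ℓ) ^ x`, where the value `0` of `χ(H, t, ℓ)` (it occurs if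
there is no `t`-set, or if the only `t`-set is the set of all vertices) is read as `1`. The least
such `x` is the number `x_{t,ℓ}`. -/
def IsBound (t l x : ℕ) : Prop :=
  ∃ C : ℕ, ∀ (V : Type) [Fintype V] [DecidableEq V] (E : Finset (Finset V)),
    TIntersecting t E → chi univ E (t + l) ≤ C * max 1 (chiLink E t l) ^ x

/-! ### Statements of the pieces -/

/-- A `t`-intersecting family of `k`-sets, `k ≤ t + ℓ - 2`, in which every `t`-set has degree at
most `D`, gives the lower bound `|P| / D` for the exponent. -/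
def S_GL : Prop :=
  ∀ (t l k D : ℕ) (P K : Type) [Fintype P] [DecidableEq P] [Nonempty P] [Fintype K]
    [DecidableEq K] (f : P → Finset K), 1 ≤ t → 2 ≤ l → 1 ≤ D → k ≤ t + l - 2 →
    (∀ p, (f p).card = k) → (∀ p p', t ≤ (f p ∩ f p').card) →
    (∀ S : Finset K, S.card = t → (univ.filter fun p => S ⊆ f p).card ≤ D) →
    ∀ x : ℕ, IsBound t l x → Fintype.card P ≤ D * x

/-- The same with sets of size exactly `t + ℓ - 2`. -/
def S_GL0 : Prop :=
  ∀ (t l D : ℕ) (P K : Type) [Fintype P] [DecidableEq P] [Nonempty P] [Fintype K]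
    [DecidableEq K] (f : P → Finset K), 1 ≤ t → 2 ≤ l → 1 ≤ D →
    (∀ p, (f p).card = t + l - 2) → (∀ p p', t ≤ (f p ∩ f p').card) →
    (∀ S : Finset K, S.card = t → (univ.filter fun p => S ⊆ f p).card ≤ D) →
    ∀ x : ℕ, IsBound t l x → Fintype.card P ≤ D * x

/-- Projective planes of prime power order, and the triangle for `q = 1`. -/
def S_PG : Prop :=
  ∀ q : ℕ, (q = 1 ∨ IsPrimePow q) →
    ∃ (P K : Type) (_ : Fintype P) (_ : DecidableEq P) (_ : Nonempty P) (_ : Fintype K)
      (_ : DecidableEq K) (f : P → Finset K),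
      Fintype.card P = q ^ 2 + q + 1 ∧ (∀ p, (f p).card = q + 1) ∧
      (∀ p p', 1 ≤ (f p ∩ f p').card) ∧
      (∀ a : K, (univ.filter fun p => a ∈ f p).card ≤ q + 1) ∧
      (∀ a b : K, a ≠ b → (univ.filter fun p => a ∈ f p ∧ b ∈ f p).card ≤ 1)

/-- Random families of graphs of functions. -/
def S_RAND : Prop :=
  ∀ t s : ℕ, 1 ≤ t → 1 ≤ s →
    ∃ (P K : Type) (_ : Fintype P) (_ : DecidableEq P) (_ : Nonempty P) (_ : Fintype K)
      (_ : DecidableEq K) (f : P → Finset K),
      Fintype.card P = 2 ^ (s * t - 1) ∧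
      (∀ p, (f p).card = t * (2 ^ s * (2 * t * s + t + 2))) ∧
      (∀ p p', t ≤ (f p ∩ f p').card) ∧
      (∀ S : Finset K, S.card = t → (univ.filter fun p => S ⊆ f p).card ≤ 11 * t ^ 2 * s)

/-- The asymptotic lower bound. -/
def S_ASYM : Prop :=
  ∀ t : ℕ, 1 ≤ t → ∃ c : ℝ, 0 < c ∧ ∀ l : ℕ, 2 ≤ l → ∀ x : ℕ, IsBound t l x →
    c * (l : ℝ) ^ t / Real.log l ^ (t + 1) ≤ x

/-- The bounds for `t = 1, 2`. -/
def S_SMALL : Prop :=
  ∀ q : ℕ, (q = 1 ∨ IsPrimePow q) →
    (∀ l : ℕ, q + 2 ≤ l → ∀ x : ℕ, IsBound 1 l x → q ^ 2 + q + 1 ≤ (q + 1) * x) ∧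
    (∀ l : ℕ, 2 * q + 2 ≤ l → ∀ x : ℕ, IsBound 2 l x →
      (q ^ 2 + q + 1) ^ 2 ≤ (q + 1) ^ 2 * x)

end H61LK
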