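import Pool.Agent.E8helper61.LK.Defs

set_option autoImplicit false
set_option linter.unusedSectionVars false

namespace H61LK

open Finset

section basic
variable {V : Type} [DecidableEq V]

theorem chi_le_card {α : Type} [Fintype α] [DecidableEq α] (W : Finset V) (E : Finset (Finset V))
    (c : ℕ) (φ : V → α) (h : ∀ e ∈ E, min c e.card ≤ (e.image φ).card) :
    chi W E c ≤ Fintype.card α := by
  classical
  refine Nat.sInf_le ⟨fun v => (Fintype.equivFin α (φ v)).val, fun v _ => (Fintype.equivFin α (φ v)).isLt,
    fun e he => ?_⟩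
  have h1 : (e.image fun v => ((Fintype.equivFin α (φ v)).val : ℕ)) =
      (e.image φ).image fun a => ((Fintype.equivFin α a).val : ℕ) := by
    rw [image_image]
    rfl
  rw [h1, card_image_of_injective]
  · exact h e he
  · intro a b hab
    exact (Fintype.equivFin α).injective (Fin.ext hab)

theorem le_chi [Fintype V] (W : Finset V) (E : Finset (Finset V)) (c m : ℕ)
    (h : ∀ k : ℕ, ∀ φ : V → ℕ, (∀ v ∈ W, φ v < k) →
      (∀ e ∈ E, min c e.card ≤ (e.image φ).card) → m ≤ k) : m ≤ chi W E c := by
  classical
  refine le_csInf ?_ ?_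
  · refine ⟨Fintype.card V, fun v => (Fintype.equivFin V v).val,
      fun v _ => (Fintype.equivFin V v).isLt, fun e _ => ?_⟩
    rw [card_image_of_injective]
    · exact min_le_right _ _
    · intro a b hab
      exact (Fintype.equivFin V).injective (Fin.ext hab)
  · rintro k ⟨φ, h1, h2⟩
    exact h k φ h1 h2

end basic

section constr
variable {P K : Type} [Fintype P] [DecidableEq P] [Fintype K] [DecidableEq K]

/-- the edge `f p ∪ {x, y}` -/
def edge (f : P → Finset K) (M : ℕ) (z : P × (P → Fin M) × (P → Fin M)) :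
    Finset (K ⊕ (P → Fin M)) :=
  (f z.1).map ⟨Sum.inl, Sum.inl_injective⟩ ∪ {Sum.inr z.2.1, Sum.inr z.2.2}

/-- the hypergraph -/
def hyp (f : P → Finset K) (M : ℕ) : Finset (Finset (K ⊕ (P → Fin M))) :=
  ((univ : Finset (P × (P → Fin M) × (P → Fin M))).filter
    fun z => z.2.1 z.1 ≠ z.2.2 z.1).image (edge f M)

theorem mem_hyp {f : P → Finset K} {M : ℕ} {e : Finset (K ⊕ (P → Fin M))} :
    e ∈ hyp f M ↔ ∃ (p : P) (x y : P → Fin M), x p ≠ y p ∧ edge f M (p, x, y) = e := by
  unfold hyp
  simp only [mem_image, mem_filter, mem_univ, true_and, Prod.exists]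

theorem mem_edge_inl {f : P → Finset K} {M : ℕ} {p : P} {x y : P → Fin M} {a : K} :
    Sum.inl a ∈ edge f M (p, x, y) ↔ a ∈ f p := by
  simp [edge]

theorem mem_edge_inr {f : P → Finset K} {M : ℕ} {p : P} {x y z : P → Fin M} :
    Sum.inr z ∈ edge f M (p, x, y) ↔ z = x ∨ z = y := by
  simp [edge]

theorem card_edge {f : P → Finset K} {M : ℕ} {p : P} {x y : P → Fin M} (h : x p ≠ y p) :
    (edge f M (p, x, y)).card = (f p).card + 2 := by
  unfold edge
  rw [card_union_of_disjoint, card_map, card_pair]
  · intro hxy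
    exact h (congrFun (Sum.inr_injective hxy) p)
  · rw [disjoint_left]
    intro v hv hv'
    simp only [mem_map, Function.Embedding.coeFn_mk] at hv
    obtain ⟨a, -, rfl⟩ := hv
    simp at hv'

theorem tInter_hyp {f : P → Finset K} {M t : ℕ} (hf : ∀ p p', t ≤ (f p ∩ f p').card) :
    TIntersecting t (hyp f M) := by
  intro e he e' he'
  obtain ⟨p, x, y, -, rfl⟩ := mem_hyp.1 he
  obtain ⟨p', x', y', -, rfl⟩ := mem_hyp.1 he'
  refine (hf p p').trans ?_
  rw [← card_map ⟨Sum.inl, Sum.inl_injective⟩ (s := f p ∩ f p')]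
  refine card_le_card ?_
  intro v hv
  simp only [mem_map, mem_inter, Function.Embedding.coeFn_mk] at hv
  obtain ⟨a, ⟨h1, h2⟩, rfl⟩ := hv
  exact mem_inter.2 ⟨mem_edge_inl.2 h1, mem_edge_inl.2 h2⟩

theorem chi_hyp {f : P → Finset K} {M c : ℕ} (hf : ∀ p, (f p).card + 2 ≤ c) :
    M ^ Fintype.card P ≤ chi univ (hyp f M) c := by
  refine le_chi _ _ _ _ fun k φ h1 h2 => ?_
  have hinj : Function.Injective fun x : P → Fin M => φ (Sum.inr x) := by
    intro x y hxy
    by_contra hne
    obtain ⟨p, hp⟩ : ∃ p, x p ≠ y p := by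
      by_contra hcon
      push Not at hcon
      exact hne (funext hcon)
    have h3 := h2 _ (mem_hyp.2 ⟨p, x, y, hp, rfl⟩)
    rw [min_eq_right (by rw [card_edge hp]; exact hf p)] at h3
    have h4 : Set.InjOn φ (edge f M (p, x, y)) :=
      card_image_iff.1 (le_antisymm card_image_le h3)
    exact hne (Sum.inr_injective (h4 (mem_coe.2 (mem_edge_inr.2 (Or.inl rfl)))
      (mem_coe.2 (mem_edge_inr.2 (Or.inr rfl))) hxy))
  have h5 : Fintype.card (P → Fin M) ≤ Fintype.card (Fin k) :=
    Fintype.card_le_of_injective (fun x : P → Fin M => (⟨φ (Sum.inr x), h1 _ (mem_univ _)⟩ : Fin k))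
      (by
        intro x y hxy
        exact hinj (Fin.mk.inj_iff.1 hxy))
  simpa using h5

theorem chiLink_hyp {f : P → Finset K} {M t l D : ℕ} (hM : 1 ≤ M) 
    (hdeg : ∀ S : Finset K, S.card = t → (univ.filter fun p => S ⊆ f p).card ≤ D) :
    chiLink (hyp f M) t l ≤ Fintype.card K + M ^ D := by
  classical
  unfold chiLink
  refine Finset.sup_le fun S hS => ?_
  have hSt : S.card = t := (mem_powersetCard.1 hS).2
  by_cases hcase : ∃ z : P → Fin M, Sum.inr z ∈ S
  · -- one colour for the second part
    obtain ⟨z, hz⟩ := hcase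
    have h1 : chi (univ \ S) (link (hyp f M) S) l ≤ Fintype.card (K ⊕ Unit) := by
      refine chi_le_card _ _ _ (fun v => Sum.map id (fun _ => ()) v) ?_
      intro e he
      refine le_trans (min_le_right _ _) (le_of_eq (Eq.symm (card_image_iff.2 ?_)))
      obtain ⟨e0, he0, rfl⟩ := mem_image.1 he
      obtain ⟨he1, he2⟩ := mem_filter.1 he0
      obtain ⟨p, x, y, -, rfl⟩ := mem_hyp.1 he1
      intro v hv w hw hvw
      simp only [coe_sdiff, Set.mem_sdiff, mem_coe] at hv hw
      rcases v with a | v <;> rcases w with b | w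
      · simpa using hvw
      · simp at hvw
      · simp at hvw
      · have h3 := mem_edge_inr.1 (he2 hz)
        have h4 := mem_edge_inr.1 hv.1
        have h5 := mem_edge_inr.1 hw.1
        have h6 : v ≠ z := fun h => hv.2 (h ▸ hz)
        have h7 : w ≠ z := fun h => hw.2 (h ▸ hz)
        congr 1
        rcases h3 with rfl | rfl
        · rw [h4.resolve_left h6, h5.resolve_left h7]
        · rw [h4.resolve_right h6, h5.resolve_right h7]
    refine h1.trans ?_
    simp only [Fintype.card_sum, Fintype.card_unit]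
    have := Nat.one_le_pow D M hM
    omega
  · push Not at hcase
    -- `S` is a subset of `K`
    let S' : Finset K := univ.filter fun a => Sum.inl a ∈ S
    have hS' : S'.card = t := by
      rw [← hSt, ← card_map ⟨Sum.inl, Sum.inl_injective⟩ (s := S')]
      congr 1
      ext v
      simp only [S', mem_map, mem_filter, mem_univ, true_and, Function.Embedding.coeFn_mk]
      constructor
      · rintro ⟨a, ha, rfl⟩
        exact ha
      · intro hv
        rcases v with a | v
        · exact ⟨a, hv, rfl⟩
        · exact absurd hv (hcase v)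
    let Q : Type := {p : P // S' ⊆ f p}
    have hQ : Fintype.card Q ≤ D := by
      have : Fintype.card Q = (univ.filter fun p => S' ⊆ f p).card := Fintype.card_subtype _
      rw [this]
      exact hdeg S' hS'
    have h1 : chi (univ \ S) (link (hyp f M) S) l ≤ Fintype.card (K ⊕ (Q → Fin M)) := by
      refine chi_le_card _ _ _ (fun v => Sum.map id (fun x : P → Fin M => fun p : Q => x p.1) v) ?_
      intro e he
      refine le_trans (min_le_right _ _) (le_of_eq (Eq.symm (card_image_iff.2 ?_)))
      obtain ⟨e0, he0, rfl⟩ := mem_image.1 he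
      obtain ⟨he1, he2⟩ := mem_filter.1 he0
      obtain ⟨p, x, y, hxy, rfl⟩ := mem_hyp.1 he1
      have hp : S' ⊆ f p := by
        intro a ha
        exact mem_edge_inl.1 (he2 (mem_filter.1 ha).2)
      intro v hv w hw hvw
      simp only [coe_sdiff, Set.mem_sdiff, mem_coe] at hv hw
      rcases v with a | v <;> rcases w with b | w
      · simpa using hvw
      · simp at hvw
      · simp at hvw
      · have h8 : (fun q : Q => v q.1) = fun q : Q => w q.1 := by simpa using hvw
        have h9 : v p = w p := congrFun h8 ⟨p, hp⟩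
        have h4 := mem_edge_inr.1 hv.1
        have h5 := mem_edge_inr.1 hw.1
        congr 1
        rcases h4 with rfl | rfl <;> rcases h5 with rfl | rfl
        · rfl
        · exact absurd h9 hxy
        · exact absurd h9.symm hxy
        · rfl
    refine h1.trans ?_
    simp only [Fintype.card_sum, Fintype.card_fun, Fintype.card_fin]
    exact Nat.add_le_add_left (Nat.pow_le_pow_right hM hQ) _

end constr

theorem t_GL0 : S_GL0 := by
  intro t l D P K _ _ _ _ _ f ht hl hD hk hint hdeg x ⟨C, hC⟩
  by_contra hcon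
  push Not at hcon
  have key : ∀ M : ℕ, 1 ≤ M → M ≤ C * (Fintype.card K + 1) ^ x := by
    intro M hM
    have h1 := hC (K ⊕ (P → Fin M)) (hyp f M) (tInter_hyp hint)
    have h2 : M ^ Fintype.card P ≤ chi univ (hyp f M) (t + l) :=
      chi_hyp fun p => by rw [hk p]; omega
    have h3 : max 1 (chiLink (hyp f M) t l) ≤ Fintype.card K + M ^ D := by
      refine max_le ?_ (chiLink_hyp hM hdeg)
      have := Nat.one_le_pow D M hM
      omega
    have h4 : M ^ (D * x + 1) ≤ M ^ Fintype.card P := Nat.pow_le_pow_right hM hcon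
    have h5 : Fintype.card K + M ^ D ≤ (Fintype.card K + 1) * M ^ D := by
      have := Nat.one_le_pow D M hM
      nlinarith
    have h6 : M ^ (D * x + 1) ≤ C * ((Fintype.card K + 1) * M ^ D) ^ x :=
      (h4.trans (h2.trans h1)).trans
        (Nat.mul_le_mul_left _ (Nat.pow_le_pow_left (h3.trans h5) _))
    rw [mul_pow, ← pow_mul, ← mul_assoc, pow_succ, mul_comm (M ^ (D * x)) M] at h6
    exact Nat.le_of_mul_le_mul_right h6 (Nat.pos_of_ne_zero (by positivity))
  have := key (C * (Fintype.card K + 1) ^ x + 1) (by omega)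
  omega

/-- padding with private points -/
theorem t_GL : S_GL := by
  classical
  intro t l k D P K _ _ _ _ _ f ht hl hD hkl hk hint hdeg x hx
  let m : ℕ := t + l - 2 - k
  let g : P → Finset (K ⊕ (P × Fin m)) := fun p =>
    (f p).disjSum ((univ : Finset (Fin m)).map ⟨fun j => (p, j), fun i j h => (Prod.mk.inj h).2⟩)
  refine t_GL0 t l D P (K ⊕ (P × Fin m)) g ht hl hD ?_ ?_ ?_ x hx
  · intro p
    simp only [g, card_disjSum, card_map, card_univ, Fintype.card_fin, hk]
    omega
  · intro p p'
    refine (hint p p').trans ?_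
    rw [← card_map ⟨Sum.inl, Sum.inl_injective⟩ (s := f p ∩ f p')]
    refine card_le_card ?_
    intro v hv
    simp only [mem_map, mem_inter, Function.Embedding.coeFn_mk] at hv
    obtain ⟨a, ⟨h1, h2⟩, rfl⟩ := hv
    simp only [g, mem_inter, inl_mem_disjSum]
    exact ⟨h1, h2⟩
  · intro S hS
    by_cases hcase : ∃ z : P × Fin m, Sum.inr z ∈ S
    · obtain ⟨⟨p0, j⟩, hz⟩ := hcase
      refine le_trans (card_le_one.2 ?_) hD
      have h1 : ∀ p, S ⊆ g p → p = p0 := by
        intro p hp
        have := hp hz
        simp only [g, inr_mem_disjSum] at this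
        obtain ⟨i, _, h⟩ := mem_map.1 this
        exact (Prod.mk.inj h).1
      intro p hp p' hp'
      rw [h1 p (mem_filter.1 hp).2, h1 p' (mem_filter.1 hp').2]
    · push Not at hcase
      let S' : Finset K := univ.filter fun a => Sum.inl a ∈ S
      have hS' : S'.card = t := by
        rw [← hS, ← card_map ⟨Sum.inl, Sum.inl_injective⟩ (s := S')]
        congr 1
        ext v
        simp only [S', mem_map, mem_filter, mem_univ, true_and, Function.Embedding.coeFn_mk]
        constructor
        · rintro ⟨a, ha, rfl⟩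
          exact ha
        · intro hv
          rcases v with a | v
          · exact ⟨a, hv, rfl⟩
          · exact absurd hv (hcase v)
      refine le_trans (card_le_card ?_) (hdeg S' hS')
      intro p hp
      simp only [mem_filter, mem_univ, true_and] at hp ⊢
      intro a ha
      have h2 := hp (mem_filter.1 ha).2
      simpa [g] using h2

end H61LK
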