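import Pool.Agent.E8helper61.LK.Defs

set_option autoImplicit false

namespace H61LK

open Finset Configuration

open scoped LinearAlgebra.Projectivization

theorem pg_field (q : ℕ) (F : Type) [Field F] [Fintype F] [DecidableEq F]
    (hq : Fintype.card F = q) :
    ∃ (P K : Type) (_ : Fintype P) (_ : DecidableEq P) (_ : Nonempty P) (_ : Fintype K)
      (_ : DecidableEq K) (f : P → Finset K),
      Fintype.card P = q ^ 2 + q + 1 ∧ (∀ p, (f p).card = q + 1) ∧
      (∀ p p', 1 ≤ (f p ∩ f p').card) ∧
      (∀ a : K, (univ.filter fun p => a ∈ f p).card ≤ q + 1) ∧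
      (∀ a b : K, a ≠ b → (univ.filter fun p => a ∈ f p ∧ b ∈ f p).card ≤ 1) := by
  classical
  let X : Type := ℙ F (Fin 3 → F)
  haveI : Finite X := inferInstanceAs (Finite (ℙ F (Fin 3 → F)))
  letI : Fintype X := Fintype.ofFinite X
  have hX : Fintype.card X = q ^ 2 + q + 1 := by
    have h := Projectivization.card_of_finrank F (Fin 3 → F) (n := 3) (by simp)
    rw [← Nat.card_eq_fintype_card]
    refine h.trans ?_
    rw [Nat.card_eq_fintype_card, hq, sum_range_succ, sum_range_succ, sum_range_one]
    ring
  have hord : ProjectivePlane.order X X = q := by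
    have h := ProjectivePlane.card_points X X
    rw [hX] at h
    nlinarith [h]
  have hpc : ∀ l : X, (univ.filter fun a : X => a ∈ l).card = q + 1 := by
    intro l
    have h := ProjectivePlane.pointCount_eq X (L := X) l
    rw [hord] at h
    rw [← h, pointCount, Nat.card_eq_fintype_card, Fintype.card_subtype]
  have hlc : ∀ a : X, (univ.filter fun l : X => a ∈ l).card = q + 1 := by
    intro a
    have h := ProjectivePlane.lineCount_eq (L := X) a
    rw [hord] at h
    rw [← h, lineCount, Nat.card_eq_fintype_card, Fintype.card_subtype]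
  refine ⟨X, X, inferInstance, inferInstance, ?_, inferInstance, inferInstance,
    fun l => univ.filter fun a => a ∈ l, hX, hpc, ?_, ?_, ?_⟩
  · rw [← Fintype.card_pos_iff, hX]
    omega
  · intro l l'
    by_cases h : l = l'
    · subst h
      rw [inter_self, hpc]
      omega
    · rw [Nat.one_le_iff_ne_zero, Ne, card_eq_zero, ← Ne, ← nonempty_iff_ne_empty]
      have h1 := HasPoints.mkPoint_ax (P := X) (L := X) h
      exact ⟨HasPoints.mkPoint h, by simp [h1.1, h1.2]⟩
  · intro a
    refine le_of_eq ((congrArg card ?_).trans (hlc a))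
    ext l
    simp
  · intro a b hab
    refine card_le_one.2 ?_
    intro l hl l' hl'
    simp only [mem_filter, mem_univ, true_and] at hl hl'
    exact (Nondegenerate.eq_or_eq hl.1 hl.2 hl'.1 hl'.2).resolve_left hab

theorem t_PG : S_PG := by
  classical
  intro q hq
  rcases hq with rfl | hq
  · refine ⟨Fin 3, Fin 3, inferInstance, inferInstance, inferInstance, inferInstance,
      inferInstance, fun i => univ.erase i, ?_⟩
    decide
  · obtain ⟨p, n, hp, hn, rfl⟩ := hq
    haveI : Fact p.Prime := ⟨hp.nat_prime⟩
    letI : Fintype (GaloisField p n) := Fintype.ofFinite _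
    refine pg_field (p ^ n) (GaloisField p n) ?_
    rw [← Nat.card_eq_fintype_card]
    exact GaloisField.card p n hn.ne'

end H61LK
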